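import Mathlib

open scoped ENNReal Polynomial
open Metric

namespace Pool.Agent.Results.MP_de3d06_an.ExactInverseBound

/-- The `n`-th Taylor coefficient of `f` at `0`. -/
noncomputable def taylorCoeff (f : ℂ → ℂ) (n : ℕ) : ℂ :=
  iteratedDeriv n f 0 / (n.factorial : ℂ)

/-- `‖f‖_W = ∑ |a_n|`, a number in `[0, ∞]`, where `a_n` are the Taylor coefficients at `0`. -/
noncomputable def wienerNorm (f : ℂ → ℂ) : ℝ≥0∞ := ∑' n : ℕ, ‖taylorCoeff f n‖ₑ

/-- The class `F_δ`: functions analytic in the open unit disc with `‖f‖_W = 1` and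
`|f z| ≥ δ` for all `z` in the open unit disc. -/
def classF (δ : ℝ) : Set (ℂ → ℂ) :=
  {f | DifferentiableOn ℂ f (ball 0 1) ∧ wienerNorm f = 1 ∧
    ∀ z ∈ ball (0 : ℂ) 1, δ ≤ ‖f z‖}

/-- `M(f) = ‖1/f‖_W`. -/
noncomputable def inverseNorm (f : ℂ → ℂ) : ℝ≥0∞ := wienerNorm (fun z => (f z)⁻¹)

/-- `C(δ) = sup_{f ∈ F_δ} M(f)`, in `[0, ∞]`. -/
noncomputable def supInverseNorm (δ : ℝ) : ℝ≥0∞ := ⨆ f ∈ classF δ, inverseNorm f

/-- `δ₀ = inf {δ ∈ (0,1] : C(δ) < ∞}`. -/
noncomputable def delta0 : ℝ := sInf {δ : ℝ | 0 < δ ∧ δ ≤ 1 ∧ supInverseNorm δ < ∞}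

/-! ### Taylor series -/

/-- Sanity check: the Taylor coefficients do represent `f` on the disc. -/
theorem hasSum_taylorCoeff {f : ℂ → ℂ} (hf : DifferentiableOn ℂ f (ball 0 1)) {z : ℂ}
    (hz : z ∈ ball (0 : ℂ) 1) : HasSum (fun n => taylorCoeff f n * z ^ n) (f z) := by
  have h := Complex.hasSum_taylorSeries_on_ball hf hz
  have e : (fun n => taylorCoeff f n * z ^ n)
      = fun n : ℕ => (n.factorial : ℂ)⁻¹ • (z - 0) ^ n • iteratedDeriv n f 0 := by
    funext n
    simp only [taylorCoeff, sub_zero, smul_eq_mul]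
    ring
  rw [e]
  exact h

/-- The Taylor series at `0` as a formal power series. -/
noncomputable def T (f : ℂ → ℂ) : PowerSeries ℂ := PowerSeries.mk (taylorCoeff f)

theorem T_mul {f g : ℂ → ℂ} (hf : AnalyticAt ℂ f 0) (hg : AnalyticAt ℂ g 0) :
    T (f * g) = T f * T g := by
  ext n
  simp only [T, PowerSeries.coeff_mk, taylorCoeff,
    iteratedDeriv_mul hf.contDiffAt hg.contDiffAt, PowerSeries.coeff_mul,
    Finset.Nat.sum_antidiagonal_eq_sum_range_succ_mk, Nat.succ_eq_add_one, Finset.sum_div]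
  refine Finset.sum_congr rfl fun i hi ↦ ?_
  rw [Nat.cast_choose _ (by grind)]
  field_simp [Nat.factorial_ne_zero]

theorem T_congr {f g : ℂ → ℂ} (h : f =ᶠ[nhds 0] g) : T f = T g := by
  ext n
  simp only [T, PowerSeries.coeff_mk, taylorCoeff]
  rw [Filter.EventuallyEq.iteratedDeriv_eq n h]

theorem T_one : T (fun _ => (1 : ℂ)) = 1 := by
  ext n
  simp only [T, PowerSeries.coeff_mk, taylorCoeff, iteratedDeriv_const, PowerSeries.coeff_one]
  by_cases hn : n = 0 <;> simp [hn]

theorem T_const (c : ℂ) : T (fun _ => c) = PowerSeries.C c := by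
  ext n
  simp only [T, PowerSeries.coeff_mk, taylorCoeff, iteratedDeriv_const, PowerSeries.coeff_C]
  by_cases hn : n = 0 <;> simp [hn]

theorem T_id : T (fun z => z) = PowerSeries.X := by
  ext n
  simp only [T, PowerSeries.coeff_mk, taylorCoeff, PowerSeries.coeff_X]
  rcases n with _ | _ | n
  · simp
  · simp [iteratedDeriv_succ']
  · simp [iteratedDeriv_succ', iteratedDeriv_const]

theorem T_add {f g : ℂ → ℂ} (hf : AnalyticAt ℂ f 0) (hg : AnalyticAt ℂ g 0) :
    T (f + g) = T f + T g := by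
  ext n
  simp only [T, PowerSeries.coeff_mk, taylorCoeff, map_add]
  rw [iteratedDeriv_add hf.contDiffAt hg.contDiffAt, add_div]

theorem analyticAt_polynomial (p : ℂ[X]) (z : ℂ) : AnalyticAt ℂ (fun z => p.eval z) z :=
  p.differentiable.analyticAt z

theorem T_polynomial (p : ℂ[X]) : T (fun z => p.eval z) = (p : PowerSeries ℂ) := by
  induction p using Polynomial.induction_on' with
  | add p q hp hq =>
    have : (fun z : ℂ => (p + q).eval z) = (fun z => p.eval z) + fun z => q.eval z := by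
      ext z; simp
    rw [this, T_add (analyticAt_polynomial p 0) (analyticAt_polynomial q 0), hp, hq]
    simp
  | monomial n c =>
    induction n with
    | zero =>
      have : (fun z : ℂ => (Polynomial.monomial 0 c).eval z) = fun _ => c := by ext z; simp
      rw [this, T_const]
      simp
    | succ n ih =>
      have : (fun z : ℂ => (Polynomial.monomial (n + 1) c).eval z)
          = (fun z => (Polynomial.monomial n c).eval z) * fun z => z := by
        ext z; simp [pow_succ, mul_assoc]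
      have hid : AnalyticAt ℂ (fun z : ℂ => z) 0 := analyticAt_id
      rw [this, T_mul (analyticAt_polynomial _ 0) hid, ih, T_id, ← Polynomial.coe_X,
        ← Polynomial.coe_mul, Polynomial.monomial_mul_X]

theorem inverse_mul {f : ℂ → ℂ} (hf : DifferentiableOn ℂ f (ball 0 1))
    (h0 : ∀ z ∈ ball (0 : ℂ) 1, f z ≠ 0) : T f * T (fun z => (f z)⁻¹) = 1 := by
  have hball : ball (0 : ℂ) 1 ∈ nhds (0 : ℂ) := ball_mem_nhds 0 one_pos
  have hfa : AnalyticAt ℂ f 0 := hf.analyticAt hball
  have hga : AnalyticAt ℂ (fun z => (f z)⁻¹) 0 := hfa.inv (h0 0 (mem_ball_self one_pos))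
  rw [← T_mul hfa hga, ← T_one]
  apply T_congr
  filter_upwards [hball] with z hz
  simp [h0 z hz]

/-! ### The upper bound -/

theorem sum_antidiagonal_le (c d : ℕ → ℝ) (hc : ∀ n, 0 ≤ c n) (hd : ∀ n, 0 ≤ d n) (N : ℕ) :
    ∑ n ∈ Finset.range N, ∑ p ∈ Finset.HasAntidiagonal.antidiagonal n, c p.1 * d p.2
      ≤ (∑ i ∈ Finset.range N, c i) * ∑ j ∈ Finset.range N, d j := by
  rw [Finset.sum_mul_sum, ← Finset.sum_product', Finset.sum_sigma']
  have hinj : Set.InjOn (fun x : (Σ _ : ℕ, ℕ × ℕ) => x.2)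
      ((Finset.range N).sigma fun n => Finset.HasAntidiagonal.antidiagonal n : Finset (Σ _ : ℕ, ℕ × ℕ)) := by
    rintro ⟨n, p⟩ hp ⟨m, q⟩ hq h
    simp only [Finset.coe_sigma, Set.mem_sigma_iff, Finset.mem_coe, Finset.HasAntidiagonal.mem_antidiagonal]
      at hp hq h
    subst h
    have : n = m := by rw [← hp.2, ← hq.2]
    subst this
    rfl
  rw [← Finset.sum_image (f := fun p : ℕ × ℕ => c p.1 * d p.2) hinj]
  apply Finset.sum_le_sum_of_subset_of_nonneg
  · intro p hp
    simp only [Finset.mem_image, Finset.mem_sigma, Finset.mem_range, Finset.HasAntidiagonal.mem_antidiagonal]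
      at hp
    obtain ⟨⟨n, q⟩, ⟨hn, hq⟩, rfl⟩ := hp
    simp only [Finset.mem_product, Finset.mem_range]
    simp only at hn hq
    constructor <;> omega
  · intro p _ _
    exact mul_nonneg (hc _) (hd _)

/-- Inversion of a power series whose constant coefficient dominates. -/
theorem sum_inverse_le (a b : ℕ → ℂ) (hab : PowerSeries.mk a * PowerSeries.mk b = 1)
    (ha : Summable fun n => ‖a n‖) (ha1 : ∑' n, ‖a n‖ = 1) {δ : ℝ} (hδ : 1 / 2 < δ)
    (h0 : δ ≤ ‖a 0‖) (N : ℕ) :
    ∑ n ∈ Finset.range N, ‖b n‖ ≤ 1 / (2 * δ - 1) := by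
  classical
  set c : ℕ → ℝ := fun n => if n = 0 then 0 else ‖a n‖ with hc
  set B : ℝ := ∑ n ∈ Finset.range N, ‖b n‖ with hB
  have hBnn : 0 ≤ B := Finset.sum_nonneg fun _ _ => norm_nonneg _
  have hcoef : ∀ n, ‖a 0‖ * ‖b n‖ ≤ (if n = 0 then 1 else 0)
      + ∑ p ∈ Finset.HasAntidiagonal.antidiagonal n, c p.1 * ‖b p.2‖ := by
    intro n
    have h := congrArg (PowerSeries.coeff n) hab
    rw [PowerSeries.coeff_mul, PowerSeries.coeff_one] at h
    simp only [PowerSeries.coeff_mk] at h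
    have hmem : ((0, n) : ℕ × ℕ) ∈ Finset.HasAntidiagonal.antidiagonal n := by simp
    rw [← Finset.add_sum_erase _ _ hmem] at h
    have h2 : a 0 * b n = (if n = 0 then 1 else 0)
        - ∑ p ∈ (Finset.HasAntidiagonal.antidiagonal n).erase (0, n), a p.1 * b p.2 := by
      rw [← h]; ring
    have h3 : ‖a 0‖ * ‖b n‖ ≤ ‖(if n = 0 then 1 else 0 : ℂ)‖
        + ‖∑ p ∈ (Finset.HasAntidiagonal.antidiagonal n).erase (0, n), a p.1 * b p.2‖ := by
      rw [← norm_mul, h2]
      exact norm_sub_le _ _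
    refine h3.trans ?_
    have h4 : ‖(if n = 0 then 1 else 0 : ℂ)‖ = (if n = 0 then 1 else 0 : ℝ) := by
      split_ifs <;> simp
    rw [h4]
    gcongr
    refine (norm_sum_le _ _).trans ?_
    rw [← Finset.add_sum_erase _ (fun p : ℕ × ℕ => c p.1 * ‖b p.2‖) hmem]
    have h5 : c 0 * ‖b n‖ = 0 := by simp [hc]
    simp only [h5, zero_add]
    apply Finset.sum_le_sum
    rintro ⟨i, j⟩ hp
    simp only [Finset.mem_erase, ne_eq, Prod.mk.injEq, Finset.HasAntidiagonal.mem_antidiagonal] at hp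
    have hi : i ≠ 0 := by
      rintro rfl
      apply hp.1
      omega
    simp [hc, hi]
  have hcN : ∑ i ∈ Finset.range N, c i ≤ 1 - ‖a 0‖ := by
    have h1 : ∑' n, ‖a n‖ = ‖a 0‖ + ∑' n, ‖a (n + 1)‖ := ha.tsum_eq_zero_add
    have hs : Summable fun n => ‖a (n + 1)‖ := (summable_nat_add_iff 1).2 ha
    have h2 : ∑ i ∈ Finset.range N, c i ≤ ∑' n, ‖a (n + 1)‖ := by
      rcases N with _ | N
      · simp only [Finset.range_zero, Finset.sum_empty]
        exact tsum_nonneg fun _ => norm_nonneg _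
      · rw [Finset.sum_range_succ']
        simp only [hc, Nat.add_eq_zero_iff, one_ne_zero, and_false, if_false, if_true, add_zero]
        exact hs.sum_le_tsum _ fun _ _ => norm_nonneg _
    linarith
  have hmain : ‖a 0‖ * B ≤ 1 + (1 - ‖a 0‖) * B := by
    calc ‖a 0‖ * B = ∑ n ∈ Finset.range N, ‖a 0‖ * ‖b n‖ := by rw [hB, Finset.mul_sum]
      _ ≤ ∑ n ∈ Finset.range N, ((if n = 0 then 1 else 0)
            + ∑ p ∈ Finset.HasAntidiagonal.antidiagonal n, c p.1 * ‖b p.2‖) :=
          Finset.sum_le_sum fun n _ => hcoef n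
      _ = ∑ n ∈ Finset.range N, (if n = 0 then (1 : ℝ) else 0)
            + ∑ n ∈ Finset.range N, ∑ p ∈ Finset.HasAntidiagonal.antidiagonal n, c p.1 * ‖b p.2‖ := by
          rw [Finset.sum_add_distrib]
      _ ≤ 1 + (∑ i ∈ Finset.range N, c i) * B := by
          gcongr
          · rw [Finset.sum_ite_eq' (Finset.range N) 0 (fun _ => (1 : ℝ))]
            split_ifs <;> norm_num
          · refine sum_antidiagonal_le c (fun n => ‖b n‖) ?_ (fun _ => norm_nonneg _) N
            intro n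
            simp only [hc]
            split_ifs
            · exact le_rfl
            · exact norm_nonneg _
      _ ≤ 1 + (1 - ‖a 0‖) * B := by gcongr
  rw [le_div_iff₀ (by linarith)]
  nlinarith

/-! ### Coefficient norm of polynomials -/

/-- The sum of the absolute values of the coefficients of a polynomial. -/
noncomputable def coefNorm (p : ℂ[X]) : ℝ := ∑ i ∈ p.support, ‖p.coeff i‖

theorem coefNorm_eq_sum_range (p : ℂ[X]) {n : ℕ} (hn : p.natDegree < n) :
    coefNorm p = ∑ i ∈ Finset.range n, ‖p.coeff i‖ := by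
  unfold coefNorm
  apply Finset.sum_subset
  · intro i hi
    rw [Finset.mem_range]
    exact (Polynomial.le_natDegree_of_mem_supp i hi).trans_lt hn
  · intro i _ hi
    rw [Polynomial.notMem_support_iff] at hi
    simp [hi]

theorem coefNorm_C_mul (c : ℂ) (p : ℂ[X]) : coefNorm (Polynomial.C c * p) = ‖c‖ * coefNorm p := by
  have h : (Polynomial.C c * p).natDegree < p.natDegree + 1 :=
    Nat.lt_succ_of_le (Polynomial.natDegree_C_mul_le c p)
  rw [coefNorm_eq_sum_range _ h, coefNorm_eq_sum_range p (Nat.lt_succ_self _), Finset.mul_sum]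
  simp

theorem coefNorm_add_X_pow_mul (p q : ℂ[X]) {n : ℕ} (hp : p.natDegree < n) :
    coefNorm (p + Polynomial.X ^ n * q) = coefNorm p + coefNorm q := by
  have h : (p + Polynomial.X ^ n * q).natDegree < n + (q.natDegree + 1) := by
    refine (Polynomial.natDegree_add_le _ _).trans_lt ?_
    have h2 : (Polynomial.X ^ n * q).natDegree ≤ n + q.natDegree := by
      refine Polynomial.natDegree_mul_le.trans ?_
      simp
    have h3 : p.natDegree < n + (q.natDegree + 1) := by omega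
    exact max_lt h3 (by omega)
  rw [coefNorm_eq_sum_range _ h, coefNorm_eq_sum_range p hp,
    coefNorm_eq_sum_range q (Nat.lt_succ_self _), Finset.sum_range_add]
  congr 1
  · apply Finset.sum_congr rfl
    intro i hi
    rw [Finset.mem_range] at hi
    rw [Polynomial.coeff_add, Polynomial.coeff_X_pow_mul', if_neg (by omega), add_zero]
  · apply Finset.sum_congr rfl
    intro i _
    rw [Polynomial.coeff_add, Polynomial.coeff_X_pow_mul', if_pos (by omega),
      Polynomial.coeff_eq_zero_of_natDegree_lt (by omega : p.natDegree < n + i), zero_add]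
    congr 2
    omega

theorem natDegree_block (q : ℕ → ℂ[X]) {B : ℕ} (hB : 0 < B) (m : ℕ)
    (hq : ∀ j < m, (q j).natDegree < B) :
    (∑ j ∈ Finset.range m, Polynomial.X ^ (B * j) * q j).natDegree < max 1 (B * m) := by
  induction m with
  | zero => simp
  | succ m ih =>
    rw [Finset.sum_range_succ]
    refine (Polynomial.natDegree_add_le _ _).trans_lt ?_
    have h1 := ih fun j hj => hq j (by omega)
    have h2 : (Polynomial.X ^ (B * m) * q m).natDegree ≤ B * m + (q m).natDegree := by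
      refine Polynomial.natDegree_mul_le.trans ?_
      simp
    have h3 := hq m (by omega)
    have h4 : B * (m + 1) = B * m + B := by ring
    rw [h4]
    apply max_lt
    · omega
    · omega

/-- Polynomials put in disjoint blocks: the coefficient norms add up. -/
theorem coefNorm_block (q : ℕ → ℂ[X]) {B : ℕ} (hB : 0 < B) (m : ℕ)
    (hq : ∀ j < m, (q j).natDegree < B) :
    coefNorm (∑ j ∈ Finset.range m, Polynomial.X ^ (B * j) * q j)
      = ∑ j ∈ Finset.range m, coefNorm (q j) := by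
  induction m with
  | zero => simp [coefNorm]
  | succ m ih =>
    rw [Finset.sum_range_succ, Finset.sum_range_succ]
    rcases Nat.eq_zero_or_pos m with rfl | hm
    · simp
    · have h1 := natDegree_block q hB m fun j hj => hq j (by omega)
      have h2 : 1 ≤ B * m := Nat.one_le_iff_ne_zero.2 (by positivity)
      rw [max_eq_right h2] at h1
      rw [coefNorm_add_X_pow_mul _ _ h1, ih fun j hj => hq j (by omega)]

theorem coefNorm_mul_expand (p q : ℂ[X]) {B : ℕ} (hp : p.natDegree < B) :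
    coefNorm (p * Polynomial.expand ℂ B q) = coefNorm p * coefNorm q := by
  have hB : 0 < B := by omega
  have h1 : p * Polynomial.expand ℂ B q
      = ∑ j ∈ Finset.range (q.natDegree + 1),
          Polynomial.X ^ (B * j) * (Polynomial.C (q.coeff j) * p) := by
    conv_lhs => rw [q.as_sum_range_C_mul_X_pow]
    rw [map_sum, Finset.mul_sum]
    apply Finset.sum_congr rfl
    intro j _
    rw [map_mul, Polynomial.expand_C, map_pow, Polynomial.expand_X, ← pow_mul]
    ring
  rw [h1, coefNorm_block _ hB]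
  · simp_rw [coefNorm_C_mul]
    rw [← Finset.sum_mul, coefNorm_eq_sum_range q (Nat.lt_succ_self _)]
    ring
  · intro j _
    exact (Polynomial.natDegree_C_mul_le _ _).trans_lt hp

theorem coefNorm_one_add_X_pow (j : ℕ) : coefNorm ((1 + Polynomial.X : ℂ[X]) ^ j) = 2 ^ j := by
  have h : ((1 + Polynomial.X : ℂ[X]) ^ j).natDegree < j + 1 := by
    refine Nat.lt_succ_of_le ((Polynomial.natDegree_pow_le).trans ?_)
    have : (1 + Polynomial.X : ℂ[X]).natDegree ≤ 1 := by
      refine (Polynomial.natDegree_add_le _ _).trans ?_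
      simp
    calc j * (1 + Polynomial.X : ℂ[X]).natDegree ≤ j * 1 := Nat.mul_le_mul_left _ this
      _ = j := by ring
  rw [coefNorm_eq_sum_range _ h]
  simp_rw [Polynomial.coeff_one_add_X_pow, Complex.norm_natCast]
  rw [← Nat.cast_sum, Nat.sum_range_choose]
  simp

/-- The seed polynomial `(1 + X - X^L)/3`. -/
noncomputable def seed (L : ℕ) : ℂ[X] :=
  Polynomial.C (1 / 3) * (1 + Polynomial.X - Polynomial.X ^ L)

theorem natDegree_seed_le {L : ℕ} (hL : 1 ≤ L) : (seed L).natDegree ≤ L := by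
  unfold seed
  refine (Polynomial.natDegree_C_mul_le _ _).trans ?_
  refine (Polynomial.natDegree_sub_le _ _).trans ?_
  simp only [Polynomial.natDegree_X_pow]
  apply max_le _ le_rfl
  refine (Polynomial.natDegree_add_le _ _).trans ?_
  simp
  omega

/-- Small powers of the seed polynomial have no cancellation. -/
theorem coefNorm_seed_pow {L k : ℕ} (hk : k < L) : coefNorm (seed L ^ k) = 1 := by
  have h1 : (1 + Polynomial.X - Polynomial.X ^ L : ℂ[X]) ^ k
      = ∑ m ∈ Finset.range (k + 1), Polynomial.X ^ (L * m) *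
          (Polynomial.C ((-1) ^ m * (k.choose m : ℂ)) * (1 + Polynomial.X) ^ (k - m)) := by
    have : (1 + Polynomial.X - Polynomial.X ^ L : ℂ[X])
        = -Polynomial.X ^ L + (1 + Polynomial.X) := by ring
    rw [this, add_pow]
    apply Finset.sum_congr rfl
    intro m _
    rw [neg_pow, ← pow_mul]
    simp only [map_mul, map_pow, map_neg, map_one, map_natCast]
    ring
  have h2 : coefNorm ((1 + Polynomial.X - Polynomial.X ^ L : ℂ[X]) ^ k) = 3 ^ k := by
    rw [h1, coefNorm_block _ (by omega)]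
    · simp_rw [coefNorm_C_mul, coefNorm_one_add_X_pow]
      have h3 : (3 : ℝ) ^ k = (1 + 2) ^ k := by norm_num
      rw [h3, add_pow]
      apply Finset.sum_congr rfl
      intro m _
      simp
      ring
    · intro m hm
      refine (Polynomial.natDegree_C_mul_le _ _).trans_lt ?_
      refine (Polynomial.natDegree_pow_le).trans_lt ?_
      have : (1 + Polynomial.X : ℂ[X]).natDegree ≤ 1 := by
        refine (Polynomial.natDegree_add_le _ _).trans ?_
        simp
      calc (k - m) * (1 + Polynomial.X : ℂ[X]).natDegree ≤ (k - m) * 1 :=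
            Nat.mul_le_mul_left _ this
        _ ≤ k := by omega
        _ < L := hk
  unfold seed
  rw [mul_pow, ← map_pow, coefNorm_C_mul, h2]
  simp

/-- The seed polynomial is strictly smaller than `1` on the closed disc. -/
theorem exists_seed_bound {L : ℕ} :
    ∃ c : ℝ, 0 ≤ c ∧ c < 1 ∧ ∀ z : ℂ, ‖z‖ ≤ 1 → ‖(seed L).eval z‖ ≤ c := by
  have hcont : Continuous fun z : ℂ => ‖(seed L).eval z‖ := by fun_prop
  obtain ⟨z₀, hz₀, hmax⟩ := (isCompact_closedBall (0 : ℂ) 1).exists_isMaxOn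
    ⟨0, by simp⟩ hcont.continuousOn
  refine ⟨‖(seed L).eval z₀‖, norm_nonneg _, ?_, fun z hz => hmax (by simpa using hz)⟩
  have hz₀' : ‖z₀‖ ≤ 1 := by simpa using hz₀
  have heval : (seed L).eval z₀ = (1 / 3) * ((1 + z₀) - z₀ ^ L) := by
    simp [seed]
  by_contra hcon
  push Not at hcon
  have h1 : ‖(seed L).eval z₀‖ = (1 / 3) * ‖(1 + z₀) - z₀ ^ L‖ := by
    rw [heval, norm_mul]; norm_num
  have h2 : ‖(1 + z₀) - z₀ ^ L‖ ≤ ‖1 + z₀‖ + ‖z₀ ^ L‖ := norm_sub_le _ _
  have h3 : ‖z₀ ^ L‖ ≤ 1 := by rw [norm_pow]; exact pow_le_one₀ (norm_nonneg _) hz₀'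
  have h4 : 2 ≤ ‖1 + z₀‖ := by rw [h1] at hcon; linarith
  have h5 : ‖1 + z₀‖ ^ 2 = 1 + 2 * z₀.re + ‖z₀‖ ^ 2 := by
    rw [← Complex.normSq_eq_norm_sq, ← Complex.normSq_eq_norm_sq, Complex.normSq_apply,
      Complex.normSq_apply]
    simp
    ring
  have h6 : z₀.re ≤ ‖z₀‖ := Complex.re_le_norm z₀
  have h7 : ‖z₀‖ ^ 2 = z₀.re ^ 2 + z₀.im ^ 2 := by
    rw [← Complex.normSq_eq_norm_sq, Complex.normSq_apply]; ring
  have h8 : z₀.re = 1 := by nlinarith [norm_nonneg z₀]
  have h9 : z₀.im = 0 := by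
    have : z₀.im ^ 2 ≤ 0 := by nlinarith [norm_nonneg z₀]
    nlinarith [sq_nonneg z₀.im]
  have h10 : z₀ = 1 := Complex.ext (by simpa using h8) (by simpa using h9)
  rw [h1, h10] at hcon
  norm_num at hcon

/-- For every `K` and `ε > 0` there is a polynomial, small on the disc, whose powers up to
exponent `K` all have coefficient norm `1`. -/
theorem exists_small_poly (K : ℕ) {ε : ℝ} (hε : 0 < ε) :
    ∃ g : ℂ[X], (∀ z : ℂ, ‖z‖ ≤ 1 → ‖g.eval z‖ ≤ ε) ∧ ∀ k ≤ K, coefNorm (g ^ k) = 1 := by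
  obtain ⟨c, hc0, hc1, hc⟩ := exists_seed_bound (L := K + 1)
  have key : ∀ t : ℕ, ∃ g : ℂ[X], (∀ z : ℂ, ‖z‖ ≤ 1 → ‖g.eval z‖ ≤ c ^ t) ∧
      ∀ k ≤ K, coefNorm (g ^ k) = 1 := by
    intro t
    induction t with
    | zero =>
      refine ⟨1, fun z _ => by simp, fun k _ => ?_⟩
      rw [one_pow, coefNorm_eq_sum_range 1 (n := 1) (by simp)]
      simp
    | succ t ih =>
      obtain ⟨g, hg1, hg2⟩ := ih
      set B : ℕ := K * (K + 1) + 1 with hB
      refine ⟨seed (K + 1) * Polynomial.expand ℂ B g, ?_, ?_⟩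
      · intro z hz
        have hzB : ‖z ^ B‖ ≤ 1 := by
          rw [norm_pow]
          exact pow_le_one₀ (norm_nonneg _) hz
        have h1 := hg1 _ hzB
        rw [Polynomial.eval_mul, norm_mul, Polynomial.expand_eval]
        calc ‖(seed (K + 1)).eval z‖ * ‖g.eval (z ^ B)‖ ≤ c * c ^ t :=
              mul_le_mul (hc z hz) h1 (norm_nonneg _) hc0
          _ = c ^ (t + 1) := by ring
      · intro k hk
        rw [mul_pow, ← map_pow, coefNorm_mul_expand, coefNorm_seed_pow (by omega), hg2 k hk,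
          mul_one]
        refine (Polynomial.natDegree_pow_le).trans_lt ?_
        have h1 : (seed (K + 1)).natDegree ≤ K + 1 := natDegree_seed_le (by omega)
        calc k * (seed (K + 1)).natDegree ≤ K * (K + 1) := Nat.mul_le_mul hk h1
          _ < B := by omega
  obtain ⟨t, ht⟩ := exists_pow_lt_of_lt_one hε hc1
  obtain ⟨g, hg1, hg2⟩ := key t
  exact ⟨g, fun z hz => (hg1 z hz).trans ht.le, hg2⟩

/-! ### The lower bound -/

theorem wienerNorm_polynomial (p : ℂ[X]) :
    wienerNorm (fun z => p.eval z) = ENNReal.ofReal (coefNorm p) := by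
  have h : ∀ n, taylorCoeff (fun z => p.eval z) n = p.coeff n := by
    intro n
    have := congrArg (PowerSeries.coeff n) (T_polynomial p)
    simpa [T] using this
  unfold wienerNorm coefNorm
  simp_rw [h]
  rw [tsum_eq_sum (s := p.support), ENNReal.ofReal_sum_of_nonneg fun _ _ => norm_nonneg _]
  · simp_rw [← ofReal_norm]
  · intro n hn
    rw [Polynomial.notMem_support_iff] at hn
    simp [hn]

/-- The main construction: for `0 < δ < a < 1` and `K`, a polynomial in `F_δ` whose inverse has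
Wiener norm at least `∑_{k ≤ K} (1/a) ((1-a)/a)^k`. -/
theorem exists_member {δ a : ℝ} (hδ : 0 < δ) (hδa : δ < a) (ha1 : a < 1) (K : ℕ) :
    ∃ f ∈ classF δ, ENNReal.ofReal (∑ k ∈ Finset.range (K + 1), (1 / a) * ((1 - a) / a) ^ k)
      ≤ inverseNorm f := by
  have ha0 : 0 < a := hδ.trans hδa
  have ha1' : 0 < 1 - a := by linarith
  obtain ⟨g, hg1, hg2⟩ := exists_small_poly (K + 1) (ε := (a - δ) / (1 - a))
    (div_pos (by linarith) ha1')
  set N : ℕ := (K + 1) * g.natDegree + 1 with hN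
  have hN0 : 0 < N := by omega
  set F : ℂ[X] := Polynomial.C (a : ℂ)
    + Polynomial.X ^ N * (Polynomial.C ((1 - a : ℝ) : ℂ) * g) with hF
  have hg1' : coefNorm g = 1 := by simpa using hg2 1 (by omega)
  have hCa : coefNorm (Polynomial.C (a : ℂ)) = a := by
    rw [coefNorm_eq_sum_range _ (n := 1) (by simp)]
    simp [abs_of_pos ha0]
  have hFnorm : coefNorm F = 1 := by
    rw [hF, coefNorm_add_X_pow_mul _ _ (by simpa using hN0), coefNorm_C_mul, hg1', hCa,
      Complex.norm_real, Real.norm_of_nonneg ha1'.le]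
    ring
  have hFbd : ∀ z : ℂ, ‖z‖ ≤ 1 → δ ≤ ‖F.eval z‖ := by
    intro z hz
    have h1 : F.eval z = a + z ^ N * (((1 - a : ℝ) : ℂ) * g.eval z) := by simp [hF]
    have h2 : ‖z ^ N * (((1 - a : ℝ) : ℂ) * g.eval z)‖ ≤ a - δ := by
      rw [norm_mul, norm_mul, norm_pow, Complex.norm_real, Real.norm_of_nonneg ha1'.le]
      calc ‖z‖ ^ N * ((1 - a) * ‖g.eval z‖) ≤ 1 * ((1 - a) * ((a - δ) / (1 - a))) := by
            apply mul_le_mul (pow_le_one₀ (norm_nonneg _) hz) _ (by positivity) zero_le_one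
            exact mul_le_mul_of_nonneg_left (hg1 z hz) ha1'.le
        _ = a - δ := by field_simp
    have h3 : ‖(a : ℂ)‖ = a := by rw [Complex.norm_real, Real.norm_of_nonneg ha0.le]
    have h4 : ‖(a : ℂ)‖ - ‖z ^ N * (((1 - a : ℝ) : ℂ) * g.eval z)‖ ≤ ‖F.eval z‖ := by
      rw [h1]
      have := norm_sub_norm_le (a : ℂ) (-(z ^ N * (((1 - a : ℝ) : ℂ) * g.eval z)))
      rwa [norm_neg, sub_neg_eq_add] at this
    linarith
  refine ⟨fun z => F.eval z, ⟨F.differentiable.differentiableOn, ?_, ?_⟩, ?_⟩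
  · rw [wienerNorm_polynomial, hFnorm, ENNReal.ofReal_one]
  · intro z hz
    exact hFbd z (by simpa using (mem_ball_zero_iff.1 hz).le)
  -- the inverse power series
  set G : PowerSeries ℂ := T (fun z => (F.eval z)⁻¹) with hG
  have hFG : (F : PowerSeries ℂ) * G = 1 := by
    rw [← T_polynomial]
    apply inverse_mul F.differentiable.differentiableOn
    intro z hz h0
    have := hFbd z (by simpa using (mem_ball_zero_iff.1 hz).le)
    rw [h0, norm_zero] at this
    linarith
  set r : ℂ := ((1 - a : ℝ) : ℂ) / a with hr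
  set GK : ℂ[X] := ∑ k ∈ Finset.range (K + 1),
    Polynomial.X ^ (N * k) * (Polynomial.C ((1 / a : ℂ) * (-r) ^ k) * g ^ k) with hGK
  have haC : (a : ℂ) ≠ 0 := by exact_mod_cast ha0.ne'
  have hgeom : F * GK = 1 - Polynomial.X ^ (N * (K + 1)) *
      (Polynomial.C ((-r) ^ (K + 1)) * g ^ (K + 1)) := by
    have h1 : F = Polynomial.C (a : ℂ) * (1 - Polynomial.C (-r) * (Polynomial.X ^ N * g)) := by
      have h0 : (a : ℂ) * -r = -((1 - a : ℝ) : ℂ) := by rw [hr]; field_simp
      have h0' : Polynomial.C (a : ℂ) * Polynomial.C (-r) = -Polynomial.C ((1 - a : ℝ) : ℂ) := by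
        rw [← map_mul, h0, map_neg]
      calc F = Polynomial.C (a : ℂ) - (-Polynomial.C ((1 - a : ℝ) : ℂ)) *
            (Polynomial.X ^ N * g) := by rw [hF]; ring
        _ = _ := by rw [← h0']; ring
    have h2 : GK = Polynomial.C (1 / a : ℂ) *
        ∑ k ∈ Finset.range (K + 1), (Polynomial.C (-r) * (Polynomial.X ^ N * g)) ^ k := by
      rw [hGK, Finset.mul_sum]
      apply Finset.sum_congr rfl
      intro k _
      rw [mul_pow, mul_pow, ← pow_mul, map_mul, map_pow]
      ring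
    have h3 : Polynomial.C (a : ℂ) * Polynomial.C (1 / a : ℂ) = 1 := by
      rw [← map_mul, mul_one_div_cancel haC, map_one]
    calc F * GK = (Polynomial.C (a : ℂ) * Polynomial.C (1 / a : ℂ)) *
          ((1 - Polynomial.C (-r) * (Polynomial.X ^ N * g)) *
          ∑ k ∈ Finset.range (K + 1), (Polynomial.C (-r) * (Polynomial.X ^ N * g)) ^ k) := by
          rw [h1, h2]; ring
      _ = 1 - (Polynomial.C (-r) * (Polynomial.X ^ N * g)) ^ (K + 1) := by
          rw [h3, one_mul, mul_comm, geom_sum_mul_neg]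
      _ = _ := by
          rw [mul_pow, mul_pow, ← pow_mul, map_pow]
          ring
  have hcoef : ∀ i < N * (K + 1), PowerSeries.coeff i G = GK.coeff i := by
    intro i hi
    have h1 : G - (GK : PowerSeries ℂ) = PowerSeries.X ^ (N * (K + 1)) *
        (G * ((Polynomial.C ((-r) ^ (K + 1)) * g ^ (K + 1) : ℂ[X]) : PowerSeries ℂ)) := by
      have h2 : (F : PowerSeries ℂ) * (GK : PowerSeries ℂ)
          = 1 - PowerSeries.X ^ (N * (K + 1)) *
            ((Polynomial.C ((-r) ^ (K + 1)) * g ^ (K + 1) : ℂ[X]) : PowerSeries ℂ) := by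
        rw [← Polynomial.coe_mul, hgeom]
        simp
      calc G - (GK : PowerSeries ℂ) = G - ((F : PowerSeries ℂ) * G) * (GK : PowerSeries ℂ) := by
            rw [hFG, one_mul]
        _ = G - G * ((F : PowerSeries ℂ) * (GK : PowerSeries ℂ)) := by ring
        _ = _ := by rw [h2]; ring
    have h3 := congrArg (PowerSeries.coeff i) h1
    rw [map_sub, PowerSeries.coeff_X_pow_mul', if_neg (by omega), sub_eq_zero] at h3
    rw [h3, Polynomial.coeff_coe]
  have hdeg : ∀ j < K + 1,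
      (Polynomial.C ((1 / a : ℂ) * (-r) ^ j) * g ^ j).natDegree < N := by
    intro j hj
    refine (Polynomial.natDegree_C_mul_le _ _).trans_lt ?_
    refine (Polynomial.natDegree_pow_le).trans_lt ?_
    calc j * g.natDegree ≤ (K + 1) * g.natDegree := Nat.mul_le_mul_right _ hj.le
      _ < N := by omega
  have hGKnorm : coefNorm GK
      = ∑ k ∈ Finset.range (K + 1), (1 / a) * ((1 - a) / a) ^ k := by
    rw [hGK, coefNorm_block _ hN0 _ hdeg]
    apply Finset.sum_congr rfl
    intro k hk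
    rw [Finset.mem_range] at hk
    rw [coefNorm_C_mul, hg2 k (by omega), mul_one, norm_mul, norm_pow, norm_neg, hr, norm_div,
      norm_div, Complex.norm_real, Complex.norm_real, Real.norm_of_nonneg ha1'.le,
      Real.norm_of_nonneg ha0.le, norm_one]
  have hGKdeg : GK.natDegree < N * (K + 1) := by
    have h1 := natDegree_block (fun k => Polynomial.C ((1 / a : ℂ) * (-r) ^ k) * g ^ k)
      hN0 (K + 1) hdeg
    have h2 : 1 ≤ N * (K + 1) := Nat.one_le_iff_ne_zero.2 (by positivity)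
    rwa [max_eq_right h2] at h1
  rw [← hGKnorm, coefNorm_eq_sum_range _ hGKdeg,
    ENNReal.ofReal_sum_of_nonneg fun _ _ => norm_nonneg _]
  unfold inverseNorm wienerNorm
  refine le_trans (le_of_eq ?_) (ENNReal.sum_le_tsum (Finset.range (N * (K + 1))))
  apply Finset.sum_congr rfl
  intro i hi
  rw [Finset.mem_range] at hi
  rw [← hcoef i hi, hG, ← ofReal_norm]
  simp [T]

theorem le_supInverseNorm {δ : ℝ} (hδ : 0 < δ) (hδ1 : δ < 1) (K : ℕ) :
    ENNReal.ofReal (∑ k ∈ Finset.range (K + 1), (1 / δ) * ((1 - δ) / δ) ^ k)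
      ≤ supInverseNorm δ := by
  have h1 : ∀ a ∈ Set.Ioo δ 1,
      ENNReal.ofReal (∑ k ∈ Finset.range (K + 1), (1 / a) * ((1 - a) / a) ^ k)
        ≤ supInverseNorm δ := by
    rintro a ⟨ha, ha1⟩
    obtain ⟨f, hf, hfM⟩ := exists_member hδ ha ha1 K
    exact hfM.trans (le_iSup₂ (f := fun f (_ : f ∈ classF δ) => inverseNorm f) f hf)
  have h2 : ContinuousAt (fun a : ℝ =>
      ENNReal.ofReal (∑ k ∈ Finset.range (K + 1), (1 / a) * ((1 - a) / a) ^ k)) δ := by
    apply ENNReal.continuous_ofReal.continuousAt.comp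
    have : ∀ k, ContinuousAt (fun a : ℝ => (1 / a) * ((1 - a) / a) ^ k) δ := by
      intro k
      have hne : δ ≠ 0 := hδ.ne'
      fun_prop (disch := assumption)
    exact tendsto_finsetSum _ fun k _ => this k
  have h3 : Filter.Tendsto (fun a : ℝ =>
      ENNReal.ofReal (∑ k ∈ Finset.range (K + 1), (1 / a) * ((1 - a) / a) ^ k))
      (nhdsWithin δ (Set.Ioi δ))
      (nhds (ENNReal.ofReal (∑ k ∈ Finset.range (K + 1), (1 / δ) * ((1 - δ) / δ) ^ k))) :=
    h2.tendsto.mono_left nhdsWithin_le_nhds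
  apply le_of_tendsto h3
  filter_upwards [Ioo_mem_nhdsGT hδ1] with a ha using h1 a ha

theorem supInverseNorm_eq_top {δ : ℝ} (hδ : 0 < δ) (hδ2 : δ ≤ 1 / 2) :
    supInverseNorm δ = ∞ := by
  refine ENNReal.eq_top_of_forall_nnreal_le fun r => ?_
  obtain ⟨K, hK⟩ := exists_nat_ge (r : ℝ)
  refine le_trans ?_ (le_supInverseNorm hδ (by linarith) K)
  rw [← ENNReal.ofReal_coe_nnreal]
  apply ENNReal.ofReal_le_ofReal
  refine hK.trans ?_
  have h1 : ∀ k ∈ Finset.range (K + 1), (1 : ℝ) ≤ (1 / δ) * ((1 - δ) / δ) ^ k := by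
    intro k _
    have h2 : 1 ≤ 1 / δ := by rw [le_div_iff₀ hδ]; linarith
    have h3 : 1 ≤ (1 - δ) / δ := by rw [le_div_iff₀ hδ]; linarith
    exact one_le_mul_of_one_le_of_one_le h2 (one_le_pow₀ h3)
  have h4 := Finset.sum_le_sum h1
  simp only [Finset.sum_const, Finset.card_range, nsmul_eq_mul, mul_one] at h4
  push_cast at h4
  linarith

theorem supInverseNorm_le {δ : ℝ} (hδ : 1 / 2 < δ) :
    supInverseNorm δ ≤ ENNReal.ofReal (1 / (2 * δ - 1)) := by
  apply iSup₂_le
  rintro f ⟨hf, hW, hlow⟩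
  unfold inverseNorm wienerNorm
  have hne : ∀ z ∈ ball (0 : ℂ) 1, f z ≠ 0 := by
    intro z hz h0
    have := hlow z hz
    rw [h0, norm_zero] at this
    linarith
  have hmul := inverse_mul hf hne
  have hW' : ∑' n, ENNReal.ofReal ‖taylorCoeff f n‖ = 1 := by
    simp_rw [ofReal_norm]
    exact hW
  have hsum : Summable fun n => ‖taylorCoeff f n‖ := by
    have h1 := ENNReal.summable_toReal (by rw [hW']; exact ENNReal.one_ne_top)
    simpa using h1
  have hsum1 : ∑' n, ‖taylorCoeff f n‖ = 1 := by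
    rw [← ENNReal.ofReal_tsum_of_nonneg (fun _ => norm_nonneg _) hsum] at hW'
    have h1 := congrArg ENNReal.toReal hW'
    rwa [ENNReal.toReal_ofReal (tsum_nonneg fun _ => norm_nonneg _), ENNReal.toReal_one] at h1
  have h0 : δ ≤ ‖taylorCoeff f 0‖ := by
    have : taylorCoeff f 0 = f 0 := by simp [taylorCoeff]
    rw [this]
    exact hlow 0 (mem_ball_self one_pos)
  have hbound := sum_inverse_le (taylorCoeff f) (taylorCoeff fun z => (f z)⁻¹) hmul hsum hsum1
    hδ h0
  rw [ENNReal.tsum_eq_iSup_nat]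
  apply iSup_le
  intro N
  simp_rw [← ofReal_norm]
  rw [← ENNReal.ofReal_sum_of_nonneg fun _ _ => norm_nonneg _]
  exact ENNReal.ofReal_le_ofReal (hbound N)

theorem le_supInverseNorm_of_gt {δ : ℝ} (hδ : 1 / 2 < δ) (hδ1 : δ ≤ 1) :
    ENNReal.ofReal (1 / (2 * δ - 1)) ≤ supInverseNorm δ := by
  rcases hδ1.lt_or_eq with hlt | rfl
  · have h0 : (0 : ℝ) < δ := by linarith
    have hr0 : 0 ≤ (1 - δ) / δ := div_nonneg (by linarith) h0.le
    have hr1 : (1 - δ) / δ < 1 := by rw [div_lt_one h0]; linarith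
    have h1 : HasSum (fun k : ℕ => (1 / δ) * ((1 - δ) / δ) ^ k)
        ((1 / δ) * (1 - (1 - δ) / δ)⁻¹) := (hasSum_geometric_of_lt_one hr0 hr1).mul_left _
    have h2 : (1 / δ) * (1 - (1 - δ) / δ)⁻¹ = 1 / (2 * δ - 1) := by
      have : (2 * δ - 1) ≠ 0 := by linarith
      have h3 : 1 - (1 - δ) / δ = (2 * δ - 1) / δ := by field_simp; ring
      rw [h3]
      field_simp
    rw [h2] at h1
    have h3 := (ENNReal.continuous_ofReal.tendsto _).comp
      (h1.tendsto_sum_nat.comp (Filter.tendsto_add_atTop_nat 1))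
    exact le_of_tendsto' h3 fun K => le_supInverseNorm h0 hlt K
  · have hmem : (fun _ : ℂ => (1 : ℂ)) ∈ classF 1 := by
      refine ⟨differentiableOn_const _, ?_, fun z _ => by simp⟩
      have := wienerNorm_polynomial (1 : ℂ[X])
      simp only [Polynomial.eval_one] at this
      rw [this, coefNorm_eq_sum_range 1 (n := 1) (by simp)]
      simp
    have h1 : inverseNorm (fun _ : ℂ => (1 : ℂ)) = 1 := by
      unfold inverseNorm
      simp only [inv_one]
      exact hmem.2.1
    have h2 : inverseNorm (fun _ : ℂ => (1 : ℂ)) ≤ supInverseNorm 1 :=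
      le_iSup₂ (f := fun f (_ : f ∈ classF 1) => inverseNorm f) _ hmem
    rw [h1] at h2
    norm_num
    exact h2

/-- **Exact solution of the inversion problem in the Wiener algebra of the disc.**
`C(δ) = ∞` for `0 < δ ≤ 1/2`, `C(δ) = 1/(2δ-1)` for `1/2 < δ ≤ 1`, and hence `δ₀ = 1/2`. -/
theorem result :
    (∀ δ : ℝ, 0 < δ → δ ≤ 1 / 2 → supInverseNorm δ = ∞) ∧
    (∀ δ : ℝ, 1 / 2 < δ → δ ≤ 1 → supInverseNorm δ = ENNReal.ofReal (1 / (2 * δ - 1))) ∧
    delta0 = 1 / 2 := by
  have h1 : ∀ δ : ℝ, 0 < δ → δ ≤ 1 / 2 → supInverseNorm δ = ∞ :=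
    fun δ h h' => supInverseNorm_eq_top h h'
  have h2 : ∀ δ : ℝ, 1 / 2 < δ → δ ≤ 1 →
      supInverseNorm δ = ENNReal.ofReal (1 / (2 * δ - 1)) :=
    fun δ h h' => le_antisymm (supInverseNorm_le h) (le_supInverseNorm_of_gt h h')
  refine ⟨h1, h2, ?_⟩
  have hset : {δ : ℝ | 0 < δ ∧ δ ≤ 1 ∧ supInverseNorm δ < ∞} = Set.Ioc (1 / 2) 1 := by
    ext δ
    simp only [Set.mem_ofPred_eq, Set.mem_Ioc]
    constructor
    · rintro ⟨h0, hle, hfin⟩
      refine ⟨?_, hle⟩
      by_contra hcon
      push Not at hcon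
      rw [h1 δ h0 hcon] at hfin
      exact lt_irrefl _ hfin
    · rintro ⟨hlt, hle⟩
      refine ⟨by linarith, hle, ?_⟩
      rw [h2 δ hlt hle]
      exact ENNReal.ofReal_lt_top
  unfold delta0
  rw [hset]
  exact csInf_Ioc (by norm_num)

end Pool.Agent.Results.MP_de3d06_an.ExactInverseBound
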